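import Pool.Agent.ANO.Dyn.Defs

/-!
# PACKAGE ANO-COORD. The coordinates of `X r k`

`UpperHalfPlane.ofComplex`, `UpperHalfPlane.ofComplex_apply`, `ofComplex_apply_of_im_pos`; it is
continuous at the points with positive imaginary part (`UpperHalfPlane.contMDiffAt_ofComplex`,
or: it coincides near `z` with the inverse of the open embedding, see
`UpperHalfPlane.isOpenEmbedding_coe`). `loc (G ∘ H) x = loc G (loc H x)` for all `x`.
`tmap_comp`: `fderiv_comp` (`DifferentiableOn` on the open set `dom r k`; `loc H (toE p) =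
toE (H p)`); the equality of the functions holds everywhere.
`near_ofE`, `near_toE`: `IsCompact.uniformContinuousAt_of_continuousAt` for `ofE` on the compact
set `toE '' K`, and for `toE` on `K`; `dom r k` is open and `toE '' K` is compact
(`IsCompact.exists_cthickening_subset_open`).
-/

set_option autoImplicit false

noncomputable section

namespace Pool.Agent.ANO.Dyn

open Metric
open scoped UpperHalfPlane

variable {r k : ℕ}

theorem isOpen_dom : IsOpen (dom r k) := by
  have h : dom r k = ⋂ i, {x : E r k | 0 < (x.1 i).im} := by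
    ext x
    simp [dom]
  rw [h]
  exact isOpen_iInter_of_finite fun i => isOpen_lt continuous_const
    (Complex.continuous_im.comp ((continuous_apply i).comp continuous_fst))

theorem toE_mem (p : X r k) : toE p ∈ dom r k := fun i => (p.1 i).coe_im_pos

theorem ofE_toE (p : X r k) : ofE (toE p) = p :=
  Prod.ext (funext fun i => UpperHalfPlane.ofComplex_apply (p.1 i)) rfl

theorem toE_ofE {x : E r k} (hx : x ∈ dom r k) : toE (ofE x) = x := by
  refine Prod.ext (funext fun i => ?_) rfl
  change ((UpperHalfPlane.ofComplex (x.1 i) : ℍ) : ℂ) = x.1 i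
  rw [UpperHalfPlane.ofComplex_apply_of_im_pos (hx i)]

theorem continuous_toE : Continuous (toE : X r k → E r k) :=
  (continuous_pi fun i => UpperHalfPlane.continuous_coe.comp
    ((continuous_apply i).comp continuous_fst)).prodMk continuous_snd

theorem continuousAt_ofE {x : E r k} (hx : x ∈ dom r k) :
    ContinuousAt (ofE : E r k → X r k) x := by
  refine ContinuousAt.prodMk (continuousAt_pi.2 fun i => ?_) continuous_snd.continuousAt
  have h1 : ContinuousAt (UpperHalfPlane.ofComplex : ℂ → ℍ) (x.1 i) :=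
    (UpperHalfPlane.contMDiffAt_ofComplex (n := 0) (hx i)).continuousAt
  have h2 : ContinuousAt (fun y : E r k => y.1 i) x :=
    ((continuous_apply i).comp continuous_fst).continuousAt
  exact ContinuousAt.comp (f := fun y : E r k => y.1 i) h1 h2

theorem loc_mem (G : X r k → X r k) (x : E r k) : loc G x ∈ dom r k := toE_mem _

theorem loc_toE (G : X r k → X r k) (p : X r k) : loc G (toE p) = toE (G p) := by
  unfold loc
  rw [ofE_toE]

theorem loc_comp (G H : X r k → X r k) (x : E r k) : loc (G ∘ H) x = loc G (loc H x) := by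
  unfold loc
  rw [ofE_toE]
  rfl

theorem loc_id {x : E r k} (hx : x ∈ dom r k) : loc (id : X r k → X r k) x = x :=
  toE_ofE hx

theorem contDiffOn_loc_comp {G H : X r k → X r k} (hG : ContDiffOn ℝ 1 (loc G) (dom r k))
    (hH : ContDiffOn ℝ 1 (loc H) (dom r k)) : ContDiffOn ℝ 1 (loc (G ∘ H)) (dom r k) :=
  (hG.comp hH fun x _ => loc_mem H x).congr fun x _ => loc_comp G H x

theorem tmap_comp {G H : X r k → X r k} (hG : ContDiffOn ℝ 1 (loc G) (dom r k))
    (hH : ContDiffOn ℝ 1 (loc H) (dom r k)) (p : X r k) :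
    tmap (G ∘ H) p = tmap G (H p) ∘L tmap H p := by
  have h1 : DifferentiableAt ℝ (loc H) (toE p) :=
    (hH.differentiableOn one_ne_zero).differentiableAt (isOpen_dom.mem_nhds (toE_mem p))
  have h2 : DifferentiableAt ℝ (loc G) (loc H (toE p)) :=
    (hG.differentiableOn one_ne_zero).differentiableAt (isOpen_dom.mem_nhds (loc_mem H _))
  have h3 : loc (G ∘ H) = loc G ∘ loc H := funext fun x => loc_comp G H x
  unfold tmap
  rw [h3, fderiv_comp _ h2 h1, loc_toE]

theorem tmap_id (p : X r k) :
    tmap (id : X r k → X r k) p = ContinuousLinearMap.id ℝ (E r k) := by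
  have h1 : loc (id : X r k → X r k) =ᶠ[nhds (toE p)] id := by
    filter_upwards [isOpen_dom.mem_nhds (toE_mem p)] with x hx
    exact loc_id hx
  unfold tmap
  rw [h1.fderiv_eq, fderiv_id]

theorem near_ofE {K : Set (X r k)} (hK : IsCompact K) {ε : ℝ} (hε : 0 < ε) :
    ∃ ρ > 0, ∀ p ∈ K, ∀ x : E r k, ‖x - toE p‖ ≤ ρ → x ∈ dom r k ∧ dist (ofE x) p ≤ ε := by
  have hK' : IsCompact (toE '' K) := hK.image continuous_toE
  have hsub : toE '' K ⊆ dom r k := by
    rintro _ ⟨p, -, rfl⟩
    exact toE_mem p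
  obtain ⟨δ, hδ, h1⟩ := hK'.exists_cthickening_subset_open isOpen_dom hsub
  have h2 := hK'.uniformContinuousAt_of_continuousAt (ofE : E r k → X r k)
    (fun x hx => continuousAt_ofE (hsub hx)) (Metric.dist_mem_uniformity hε)
  rw [Metric.mem_uniformity_dist] at h2
  obtain ⟨δ', hδ', h3⟩ := h2
  refine ⟨min δ (δ' / 2), lt_min hδ (half_pos hδ'), fun p hp x hx => ⟨?_, ?_⟩⟩
  · apply h1
    refine mem_cthickening_of_dist_le x (toE p) δ _ (Set.mem_image_of_mem _ hp) ?_
    rw [dist_eq_norm]
    exact hx.trans (min_le_left _ _)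
  · have h4 : dist (toE p) x < δ' := by
      rw [dist_comm, dist_eq_norm]
      exact lt_of_le_of_lt (hx.trans (min_le_right _ _)) (half_lt_self hδ')
    have h5 := h3 h4 (Set.mem_image_of_mem _ hp)
    have h6 : dist (ofE (toE p)) (ofE x) < ε := h5
    rw [ofE_toE, dist_comm] at h6
    exact h6.le

theorem near_toE {K : Set (X r k)} (hK : IsCompact K) {ρ : ℝ} (hρ : 0 < ρ) :
    ∃ δ > 0, ∀ p ∈ K, ∀ q : X r k, dist p q ≤ δ → ‖toE q - toE p‖ ≤ ρ := by
  have h2 := hK.uniformContinuousAt_of_continuousAt (toE : X r k → E r k)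
    (fun x _ => continuous_toE.continuousAt) (Metric.dist_mem_uniformity hρ)
  rw [Metric.mem_uniformity_dist] at h2
  obtain ⟨δ', hδ', h3⟩ := h2
  refine ⟨δ' / 2, half_pos hδ', fun p hp q hq => ?_⟩
  have h4 : dist (toE p) (toE q) < ρ := h3 (lt_of_le_of_lt hq (half_lt_self hδ')) hp
  rw [dist_comm, dist_eq_norm] at h4
  exact h4.le

end Pool.Agent.ANO.Dyn
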