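import Pool.Agent.ANO.Dyn.Defs

/-!
# PACKAGE ANO-DECK. Deck transformations

The metric of `X r k` is the sup metric. `SL(2, ℝ)` acts on `ℍ` by isometries (`IsIsometricSMul
SL(2, ℝ) ℍ`, `dist_smul`), translations are isometries of `ℝ^k`; so `g` is an isometry
(`Prod.dist_eq`, `dist_pi_def`). `finite`: let `K₁ i` be the image of `K` under `p ↦ p.1 i`
(compact), `K₂` the image under `p ↦ p.2`; the `γ i` belong to the finite set `(S i).proper (K₁
i)`, the integral vector `v` is bounded (`K₂` is bounded, `v = (g p).2 - p.2`), so there are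
finitely many pairs `(γ, v)` (`Set.Finite.pi`), and the set in question is contained in the image.
`cocompact`: `K = (Set.univ.pi K_i) ×ˢ (Set.Icc 0 1)`, `v j = - ⌊p.2 j⌋`.
-/

set_option autoImplicit false

noncomputable section

namespace Pool.Agent.ANO.Dyn

open Metric
open scoped UpperHalfPlane MatrixGroups

variable {r k : ℕ} {S : Fin r → PASurface}

theorem isDeck_id : IsDeck S k id := by
  refine ⟨fun _ => 1, fun _ => 0, fun i => (S i).Γ.one_mem, fun p => ?_⟩
  simp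

theorem IsDeck.comp {g h : X r k → X r k} (hg : IsDeck S k g) (hh : IsDeck S k h) :
    IsDeck S k (g ∘ h) := by
  obtain ⟨γ, v, hγ, hg⟩ := hg
  obtain ⟨γ', v', hγ', hh⟩ := hh
  refine ⟨fun i => γ i * γ' i, fun j => v' j + v j, fun i => (S i).Γ.mul_mem (hγ i) (hγ' i),
    fun p => ?_⟩
  rw [Function.comp_apply, hg, hh]
  refine Prod.ext ?_ ?_
  · funext i
    simp only [mul_smul]
  · funext j
    simp only [Int.cast_add]
    ring

theorem IsDeck.inv {g : X r k → X r k} (hg : IsDeck S k g) :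
    ∃ g', IsDeck S k g' ∧ (∀ p, g' (g p) = p) ∧ ∀ p, g (g' p) = p := by
  obtain ⟨γ, v, hγ, hg⟩ := hg
  refine ⟨fun p => (fun i => (γ i)⁻¹ • p.1 i, fun j => p.2 j + (-v j : ℤ)),
    ⟨fun i => (γ i)⁻¹, fun j => -v j, fun i => (S i).Γ.inv_mem (hγ i), fun p => rfl⟩,
    fun p => ?_, fun p => ?_⟩
  · rw [hg]
    refine Prod.ext ?_ ?_
    · funext i
      simp only [inv_smul_smul]
    · funext j
      simp only [Int.cast_neg]
      ring
  · rw [hg]
    refine Prod.ext ?_ ?_
    · funext i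
      simp only [smul_inv_smul]
    · funext j
      simp only [Int.cast_neg]
      ring

theorem IsDeck.isometry {g : X r k → X r k} (hg : IsDeck S k g) : Isometry g := by
  obtain ⟨γ, v, hγ, hg⟩ := hg
  refine Isometry.of_dist_eq fun p q => ?_
  have h1 : dist (g p).1 (g q).1 = dist p.1 q.1 := by
    rw [hg, hg, dist_pi_def, dist_pi_def]
    congr 1
    refine Finset.sup_congr rfl fun i _ => ?_
    simp only [nndist_smul]
  have h2 : dist (g p).2 (g q).2 = dist p.2 q.2 := by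
    rw [hg, hg, dist_pi_def, dist_pi_def]
    congr 1
    refine Finset.sup_congr rfl fun j _ => ?_
    simp only [nndist_add_right]
  rw [Prod.dist_eq, Prod.dist_eq, h1, h2]

theorem deck_finite {K : Set (X r k)} (hK : IsCompact K) :
    {g | IsDeck S k g ∧ ∃ p ∈ K, g p ∈ K}.Finite := by
  classical
  have hK1 : ∀ i : Fin r, IsCompact ((fun p : X r k => p.1 i) '' K) := fun i =>
    hK.image (by fun_prop)
  have hF1 : ∀ i : Fin r, {γ : SL(2, ℝ) | γ ∈ (S i).Γ ∧ ∃ z ∈ ((fun p : X r k => p.1 i) '' K),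
      γ • z ∈ ((fun p : X r k => p.1 i) '' K)}.Finite := fun i => (S i).proper _ (hK1 i)
  have hK2 : Bornology.IsBounded ((fun p : X r k => p.2) '' K) :=
    (hK.image (by fun_prop)).isBounded
  obtain ⟨R, hR⟩ := hK2.subset_closedBall 0
  obtain ⟨N, hN⟩ := exists_nat_ge (2 * R)
  have hF2 : (Set.univ.pi fun _ : Fin k => Set.Icc (-(N : ℤ)) N).Finite :=
    Set.Finite.pi fun _ => Set.finite_Icc _ _
  have hF3 := Set.Finite.pi hF1
  refine ((hF3.prod hF2).image (fun (a : (Fin r → SL(2, ℝ)) × (Fin k → ℤ)) (p : X r k) =>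
    ((fun i => a.1 i • p.1 i, fun j => p.2 j + a.2 j) : X r k))).subset ?_
  rintro g ⟨⟨γ, v, hγ, hg⟩, p, hp, hgp⟩
  refine ⟨(γ, v), ⟨?_, ?_⟩, ?_⟩
  · intro i _
    refine ⟨hγ i, p.1 i, ⟨p, hp, rfl⟩, g p, hgp, ?_⟩
    simp only [hg]
  · intro j _
    have h1 : ‖p.2‖ ≤ R := by
      have := hR ⟨p, hp, rfl⟩
      rwa [mem_closedBall_zero_iff] at this
    have h2 : ‖(g p).2‖ ≤ R := by
      have := hR ⟨g p, hgp, rfl⟩
      rwa [mem_closedBall_zero_iff] at this
    have h3 : |p.2 j| ≤ R := (norm_le_pi_norm p.2 j).trans h1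
    have h4 : |(g p).2 j| ≤ R := (norm_le_pi_norm (g p).2 j).trans h2
    have h5 : ((v j : ℤ) : ℝ) = (g p).2 j - p.2 j := by
      rw [hg]
      ring
    rw [abs_le] at h3 h4
    have h6 : ((v j : ℤ) : ℝ) ≤ (N : ℝ) := by linarith [h3.1, h4.2]
    have h7 : -(N : ℝ) ≤ ((v j : ℤ) : ℝ) := by linarith [h3.2, h4.1]
    refine ⟨?_, ?_⟩
    · exact_mod_cast h7
    · exact_mod_cast h6
  · funext q
    rw [hg]

theorem deck_cocompact (S : Fin r → PASurface) (k : ℕ) :
    ∃ K : Set (X r k), IsCompact K ∧ ∀ p, ∃ g, IsDeck S k g ∧ g p ∈ K := by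
  choose K hK hKp using fun i => (S i).cocompact
  refine ⟨(Set.univ.pi K) ×ˢ (Set.univ.pi fun _ => Set.Icc (0 : ℝ) 1),
    (isCompact_univ_pi hK).prod (isCompact_univ_pi fun _ => isCompact_Icc), fun p => ?_⟩
  choose γ hγ hγK using fun i => hKp i (p.1 i)
  refine ⟨fun q => (fun i => γ i • q.1 i, fun j => q.2 j + ((-⌊p.2 j⌋ : ℤ) : ℝ)),
    ⟨γ, fun j => -⌊p.2 j⌋, hγ, fun q => rfl⟩, ?_, ?_⟩
  · intro i _
    exact hγK i
  · intro j _
    have h1 := Int.floor_le (p.2 j)
    have h2 := Int.lt_floor_add_one (p.2 j)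
    simp only [Int.cast_neg, Set.mem_Icc]
    constructor <;> linarith

end Pool.Agent.ANO.Dyn
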