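import Pool.Agent.ANO.Defs

/-!
# ANO, module C (hyperbolic dynamics): definitions and overview

We prove that a lift `F` to `X r k` of an Anosov diffeomorphism is expansive and has the shadowing
property (for the sup metric of `X r k = (Fin r → ℍ) × (Fin k → ℝ)`).

* `Seq`: an abstract fixed point theorem for sequences of maps of a Banach space.
* `Loc`: a `C¹` map which is hyperbolic at a point satisfies the estimates `Est` near it.
* `Unif`: uniformity of `Est` over a compact set.
* `Coord`: the coordinates `toE`, `ofE`, `loc`, `tmap`.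
* `Deck`: deck transformations: group, isometries, finiteness, cocompactness.
* `DeckC`: deck transformations are smooth and preserve `tnorm`.
* `Hyp`: one step hyperbolicity of `h ∘ F ^ N`, `h` a deck transformation, over a compact set.
* `Pow`: expansivity and shadowing for `F ^ N` and for `F`.
* `Main`: the two theorems.
-/

set_option autoImplicit false

noncomputable section

namespace Pool.Agent.ANO.Dyn

open Metric

section

variable {E : Type*} [NormedAddCommGroup E] [NormedSpace ℝ E]

/-- The estimates for a map `f` near `k`, with the inverse map `g` near `k'`, which is hyperbolic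
with respect to the projections `P` at `k` and `P'` at `k'` (onto the unstable directions). -/
structure Est (f g : E → E) (P P' : E →L[ℝ] E) (k k' : E) (ρ : ℝ) : Prop where
  s : ∀ y ∈ closedBall k ρ, ∀ y' ∈ closedBall k ρ,
    ‖(f y - f y') - P' (f y - f y')‖ ≤ 1 / 8 * ‖y - y'‖
  u : ∀ z ∈ closedBall k' ρ, ∀ z' ∈ closedBall k' ρ, ‖P (g z - g z')‖ ≤ 1 / 8 * ‖z - z'‖
  eq : ∀ y ∈ closedBall k ρ, ∀ z ∈ closedBall k' ρ, P (y - g z) = 0 →
    P' (z - f y) = z - f y → z = f y

theorem Est.mono {f g : E → E} {P P' : E →L[ℝ] E} {k k' : E} {ρ ρ' : ℝ}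
    (h : Est f g P P' k k' ρ) (hρ : ρ' ≤ ρ) : Est f g P P' k k' ρ' where
  s y hy y' hy' := h.s y (closedBall_subset_closedBall hρ hy) y'
    (closedBall_subset_closedBall hρ hy')
  u z hz z' hz' := h.u z (closedBall_subset_closedBall hρ hz) z'
    (closedBall_subset_closedBall hρ hz')
  eq y hy z hz := h.eq y (closedBall_subset_closedBall hρ hy) z
    (closedBall_subset_closedBall hρ hz)

end

section

variable {X : Type*} [MetricSpace X]

/-- `F` is expansive. -/
def Expansive (F : X ≃ₜ X) : Prop :=
  ∃ e > 0, ∀ x y, (∀ j : ℤ, dist ((F ^ j) x) ((F ^ j) y) ≤ e) → x = y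

/-- `F` has the shadowing property. -/
def Shadowing (F : X ≃ₜ X) : Prop :=
  ∀ ε > 0, ∃ δ > 0, ∀ x : ℤ → X, (∀ j, dist (F (x j)) (x (j + 1)) ≤ δ) →
    ∃ y, ∀ j : ℤ, dist ((F ^ j) y) (x j) ≤ ε

end

end Pool.Agent.ANO.Dyn
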