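import Pool.Agent.ANO.Dyn.Defs

/-!
# PACKAGE ANO-LOC. Estimates near a hyperbolic point

Let `A = fderiv f x`, `B = fderiv g (f x)`, `P = Pr x`, `P' = Pr (f x)`. `f`, `g` are strictly
differentiable at `x`, `f x` (`ContDiffAt.hasStrictFDerivAt`, `U` is a neighbourhood). `B A = 1`,
`A B = 1` (chain rule, `g ∘ f = id` near `x`, `f ∘ g = id` near `f x`), so `hcomm` gives
`P B = B P'`. Choose `ε > 0` with `‖A - P' A‖ + ‖1 - P'‖ ε < 1/8`, `‖P B‖ + ‖P‖ ε < 1/8`,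
`‖P'‖ ε < 1/2`, `‖1 - P‖ ε < 1/2`. For all `(k, k')` close to `(x, f x)`, by continuity of `Pr`,

(a) `‖A - Pr k' A‖ + ‖1 - Pr k'‖ ε < 1/8`,   (b) `‖Pr k B‖ + ‖Pr k‖ ε < 1/8`,
(c) `‖Pr k' A (1 - Pr k)‖ + ‖Pr k'‖ ε < 1/2` (at the base point `P' A (1 - P) = A P (1 - P) = 0`),
(d) `‖(1 - Pr k) B Pr k'‖ + ‖1 - Pr k‖ ε < 1/2` (`(1 - P) B P' = (1 - P) P B = 0`),

and there is `r > 0` with `‖f y - f y' - A (y - y')‖ ≤ ε ‖y - y'‖` on `ball x r ⊆ U`, the same for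
`g`, `B` on `ball (f x) r ⊆ U`. Take `ρ` so small that also `2 ρ < r`, `g` maps `ball (f x) (2ρ +
small)` to `ball x r` and `f` maps `ball x (..)` to `ball (f x) r` (continuity). `Est.s`: (a),
`Est.u`: (b). `Est.eq`: `e = y - g z`, `d = z - f y`; `d = f (g z) - f y = - A e + r₁`, `‖r₁‖ ≤ ε
‖e‖`, `e = e - Pr k e`, so `d = Pr k' d = - Pr k' A (e - Pr k e) + Pr k' r₁`, `‖d‖ ≤ ‖e‖ / 2` by
(c); `e = g (f y) - g z = - B d + r₂`, `‖r₂‖ ≤ ε ‖d‖`, `e = (1 - Pr k) e = - (1 - Pr k) B (Pr k'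
d) + (1 - Pr k) r₂`, so `‖e‖ ≤ ‖d‖ / 2` by (d). So `d = 0`.
-/

set_option autoImplicit false

noncomputable section

namespace Pool.Agent.ANO.Dyn

open Metric

variable {E : Type*} [NormedAddCommGroup E] [NormedSpace ℝ E]

private theorem base_rel {U : Set E} (hU : IsOpen U) {f g : E → E}
    (hgf : ∀ x ∈ U, g (f x) = x) {A B : E →L[ℝ] E} {x : E} (hx : x ∈ U)
    (hA : HasStrictFDerivAt f A x) (hB : HasStrictFDerivAt g B (f x)) (v : E) :
    B (A v) = v := by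
  have h1 : HasFDerivAt (g ∘ f) (B ∘L A) x := (hB.comp x hA).hasFDerivAt
  have h2 : HasFDerivAt (g ∘ f) (ContinuousLinearMap.id ℝ E) x := by
    refine (hasFDerivAt_id x).congr_of_eventuallyEq ?_
    filter_upwards [hU.mem_nhds hx] with y hy
    exact hgf y hy
  have h3 := congrArg (fun L : E →L[ℝ] E => L v) (h1.unique h2)
  simpa using h3

private theorem strict_ball {f : E → E} {A : E →L[ℝ] E} {x : E}
    (hA : HasStrictFDerivAt f A x) {ε : ℝ} (hε : 0 < ε) :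
    ∃ r > 0, ∀ y ∈ ball x r, ∀ y' ∈ ball x r, ‖f y - f y' - A (y - y')‖ ≤ ε * ‖y - y'‖ := by
  have h1 := hA.isLittleO.def hε
  obtain ⟨r, hr, h2⟩ := Metric.eventually_nhds_iff.1 h1
  refine ⟨r, hr, fun y hy y' hy' => ?_⟩
  have h3 : dist (y, y') (x, x) < r := by
    rw [Prod.dist_eq]
    exact max_lt (mem_ball.1 hy) (mem_ball.1 hy')
  exact h2 h3

theorem loc_est {U : Set E} (hU : IsOpen U) {f g : E → E} (hf : ContDiffOn ℝ 1 f U)
    (hg : ContDiffOn ℝ 1 g U) (hfU : Set.MapsTo f U U) (hgU : Set.MapsTo g U U)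
    (hgf : ∀ x ∈ U, g (f x) = x) (hfg : ∀ x ∈ U, f (g x) = x) {Pr : E → E →L[ℝ] E}
    (hPr : ContinuousOn Pr U) (hidem : ∀ x ∈ U, Pr x ∘L Pr x = Pr x) {x : E} (hx : x ∈ U)
    (hcomm : Pr (f x) ∘L fderiv ℝ f x = fderiv ℝ f x ∘L Pr x)
    (hs : ‖fderiv ℝ f x - Pr (f x) ∘L fderiv ℝ f x‖ < 1 / 8)
    (hu : ‖Pr x ∘L fderiv ℝ g (f x)‖ < 1 / 8) :
    ∃ ρ > 0, ∀ k ∈ closedBall x ρ, ∀ k' ∈ closedBall (f x) ρ,
      closedBall k ρ ⊆ U ∧ closedBall k' ρ ⊆ U ∧ Est f g (Pr k) (Pr k') k k' ρ := by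
  have hfx : f x ∈ U := hfU hx
  have hA : HasStrictFDerivAt f (fderiv ℝ f x) x :=
    (hf.contDiffAt (hU.mem_nhds hx)).hasStrictFDerivAt (by simp)
  have hB : HasStrictFDerivAt g (fderiv ℝ g (f x)) (f x) :=
    (hg.contDiffAt (hU.mem_nhds hfx)).hasStrictFDerivAt (by simp)
  have hA' : HasStrictFDerivAt f (fderiv ℝ f x) (g (f x)) := by
    rw [hgf x hx]; exact hA
  have hBA := base_rel hU hgf hx hA hB
  have hAB := base_rel hU hfg hfx hB hA'
  generalize fderiv ℝ f x = A at *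
  generalize fderiv ℝ g (f x) = B at *
  -- the relations at the base point
  have hc0 : Pr (f x) ∘L A ∘L (ContinuousLinearMap.id ℝ E - Pr x) = 0 := by
    ext v
    have h1 : Pr (f x) (A v) = A (Pr x v) := congrArg (fun L : E →L[ℝ] E => L v) hcomm
    have h2 : Pr (f x) (A (Pr x v)) = A (Pr x (Pr x v)) :=
      congrArg (fun L : E →L[ℝ] E => L (Pr x v)) hcomm
    have h3 : Pr x (Pr x v) = Pr x v :=
      congrArg (fun L : E →L[ℝ] E => L v) (hidem x hx)
    simp only [ContinuousLinearMap.comp_apply, sub_apply,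
      ContinuousLinearMap.id_apply, map_sub, zero_apply]
    rw [h1, h2, h3, sub_self]
  have hPB : ∀ v, Pr x (B v) = B (Pr (f x) v) := by
    intro v
    have h1 : Pr (f x) (A (B v)) = A (Pr x (B v)) :=
      congrArg (fun L : E →L[ℝ] E => L (B v)) hcomm
    rw [hAB] at h1
    rw [h1, hBA]
  have hd0 : (ContinuousLinearMap.id ℝ E - Pr x) ∘L B ∘L Pr (f x) = 0 := by
    ext v
    have h3 : Pr x (Pr x (B v)) = Pr x (B v) :=
      congrArg (fun L : E →L[ℝ] E => L (B v)) (hidem x hx)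
    simp only [ContinuousLinearMap.comp_apply, sub_apply,
      ContinuousLinearMap.id_apply, zero_apply]
    rw [← hPB v, h3, sub_self]
  -- continuity of `Pr`
  have hPx : ContinuousAt Pr x := hPr.continuousAt (hU.mem_nhds hx)
  have hPfx : ContinuousAt Pr (f x) := hPr.continuousAt (hU.mem_nhds hfx)
  have hk : ContinuousAt (fun p : ℝ × E × E => Pr p.2.1) ((0 : ℝ), x, f x) :=
    ContinuousAt.comp (f := fun p : ℝ × E × E => p.2.1) (g := Pr) hPx
      (continuous_fst.comp continuous_snd).continuousAt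
  have hk' : ContinuousAt (fun p : ℝ × E × E => Pr p.2.2) ((0 : ℝ), x, f x) :=
    ContinuousAt.comp (f := fun p : ℝ × E × E => p.2.2) (g := Pr) hPfx
      (continuous_snd.comp continuous_snd).continuousAt
  have he : ContinuousAt (fun p : ℝ × E × E => p.1) ((0 : ℝ), x, f x) :=
    continuous_fst.continuousAt
  have ha : ∀ᶠ p : ℝ × E × E in nhds ((0 : ℝ), x, f x),
      ‖A - Pr p.2.2 ∘L A‖ + ‖ContinuousLinearMap.id ℝ E - Pr p.2.2‖ * p.1 < 1 / 8 := by
    have h1 : ContinuousAt (fun p : ℝ × E × E =>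
        ‖A - Pr p.2.2 ∘L A‖ + ‖ContinuousLinearMap.id ℝ E - Pr p.2.2‖ * p.1)
        ((0 : ℝ), x, f x) :=
      ((continuousAt_const.sub (hk'.clm_comp continuousAt_const)).norm).add
        ((continuousAt_const.sub hk').norm.mul he)
    refine h1.eventually_lt continuousAt_const ?_
    simpa using hs
  have hb : ∀ᶠ p : ℝ × E × E in nhds ((0 : ℝ), x, f x),
      ‖Pr p.2.1 ∘L B‖ + ‖Pr p.2.1‖ * p.1 < 1 / 8 := by
    have h1 : ContinuousAt (fun p : ℝ × E × E => ‖Pr p.2.1 ∘L B‖ + ‖Pr p.2.1‖ * p.1)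
        ((0 : ℝ), x, f x) :=
      ((hk.clm_comp continuousAt_const).norm).add (hk.norm.mul he)
    refine h1.eventually_lt continuousAt_const ?_
    simpa using hu
  have hc : ∀ᶠ p : ℝ × E × E in nhds ((0 : ℝ), x, f x),
      ‖Pr p.2.2 ∘L A ∘L (ContinuousLinearMap.id ℝ E - Pr p.2.1)‖ + ‖Pr p.2.2‖ * p.1
        < 1 / 2 := by
    have h1 : ContinuousAt (fun p : ℝ × E × E =>
        ‖Pr p.2.2 ∘L A ∘L (ContinuousLinearMap.id ℝ E - Pr p.2.1)‖ + ‖Pr p.2.2‖ * p.1)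
        ((0 : ℝ), x, f x) :=
      ((hk'.clm_comp (continuousAt_const.clm_comp (continuousAt_const.sub hk))).norm).add
        (hk'.norm.mul he)
    refine h1.eventually_lt continuousAt_const ?_
    simp only [hc0]
    simp
  have hd : ∀ᶠ p : ℝ × E × E in nhds ((0 : ℝ), x, f x),
      ‖(ContinuousLinearMap.id ℝ E - Pr p.2.1) ∘L B ∘L Pr p.2.2‖
        + ‖ContinuousLinearMap.id ℝ E - Pr p.2.1‖ * p.1 < 1 / 2 := by
    have h1 : ContinuousAt (fun p : ℝ × E × E =>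
        ‖(ContinuousLinearMap.id ℝ E - Pr p.2.1) ∘L B ∘L Pr p.2.2‖
        + ‖ContinuousLinearMap.id ℝ E - Pr p.2.1‖ * p.1)
        ((0 : ℝ), x, f x) :=
      (((continuousAt_const.sub hk).clm_comp (continuousAt_const.clm_comp hk')).norm).add
        ((continuousAt_const.sub hk).norm.mul he)
    refine h1.eventually_lt continuousAt_const ?_
    simp only [hd0]
    simp
  obtain ⟨δ, hδ, hall⟩ := Metric.eventually_nhds_iff.1 ((ha.and hb).and (hc.and hd))
  have hε : 0 < δ / 2 := by positivity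
  set ε := δ / 2 with hεdef
  obtain ⟨r₁, hr₁, hfA⟩ := strict_ball hA hε
  obtain ⟨r₂, hr₂, hgB⟩ := strict_ball hB hε
  obtain ⟨u₁, hu₁, hUx⟩ := Metric.isOpen_iff.1 hU x hx
  obtain ⟨u₂, hu₂, hUfx⟩ := Metric.isOpen_iff.1 hU (f x) hfx
  have hfc : ContinuousAt f x := hA.continuousAt
  have hgc : ContinuousAt g (f x) := hB.continuousAt
  obtain ⟨s₁, hs₁, hfs⟩ := Metric.continuousAt_iff.1 hfc r₂ hr₂
  obtain ⟨s₂, hs₂, hgs⟩ := Metric.continuousAt_iff.1 hgc r₁ hr₁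
  rw [hgf x hx] at hgs
  obtain ⟨m, hm, h1, h2, h3, h4, h5, h6, h7⟩ : ∃ m > 0, m ≤ r₁ ∧ m ≤ r₂ ∧ m ≤ u₁ ∧ m ≤ u₂ ∧
      m ≤ s₁ ∧ m ≤ s₂ ∧ m ≤ δ := by
    refine ⟨min r₁ (min r₂ (min u₁ (min u₂ (min s₁ (min s₂ δ))))), by positivity, ?_, ?_, ?_,
      ?_, ?_, ?_, ?_⟩ <;> simp
  refine ⟨m / 4, by positivity, fun k hkx k' hkx' => ?_⟩
  have hkx1 : dist k x ≤ m / 4 := mem_closedBall.1 hkx
  have hkx1' : dist k' (f x) ≤ m / 4 := mem_closedBall.1 hkx'
  have hy0 : ∀ y ∈ closedBall k (m / 4), dist y x < m := by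
    intro y hy
    have := dist_triangle y k x
    have := mem_closedBall.1 hy
    linarith
  have hz0 : ∀ z ∈ closedBall k' (m / 4), dist z (f x) < m := by
    intro z hz
    have := dist_triangle z k' (f x)
    have := mem_closedBall.1 hz
    linarith
  have hp : dist ((ε, k, k') : ℝ × E × E) ((0 : ℝ), x, f x) < δ := by
    rw [Prod.dist_eq, Prod.dist_eq]
    refine max_lt ?_ (max_lt ?_ ?_)
    · rw [Real.dist_eq, sub_zero, abs_of_pos hε]; linarith
    · exact lt_of_le_of_lt hkx1 (by linarith)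
    · exact lt_of_le_of_lt hkx1' (by linarith)
  obtain ⟨⟨pa, pb⟩, ⟨pc, pd⟩⟩ := hall hp
  simp only at pa pb pc pd
  refine ⟨fun y hy => hUx (mem_ball.2 ((hy0 y hy).trans_le h3)),
    fun z hz => hUfx (mem_ball.2 ((hz0 z hz).trans_le h4)), ?_, ?_, ?_⟩
  · intro y hy y' hy'
    have hr := hfA y (mem_ball.2 ((hy0 y hy).trans_le h1)) y'
      (mem_ball.2 ((hy0 y' hy').trans_le h1))
    have e1 : f y - f y' - Pr k' (f y - f y')
        = (A - Pr k' ∘L A) (y - y')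
          + (ContinuousLinearMap.id ℝ E - Pr k') (f y - f y' - A (y - y')) := by
      simp only [sub_apply, ContinuousLinearMap.comp_apply,
        ContinuousLinearMap.id_apply, map_sub]
      abel
    rw [e1]
    calc _ ≤ ‖(A - Pr k' ∘L A) (y - y')‖
          + ‖(ContinuousLinearMap.id ℝ E - Pr k') (f y - f y' - A (y - y'))‖ := norm_add_le _ _
      _ ≤ ‖A - Pr k' ∘L A‖ * ‖y - y'‖
          + ‖ContinuousLinearMap.id ℝ E - Pr k'‖ * (ε * ‖y - y'‖) :=
        add_le_add (ContinuousLinearMap.le_opNorm _ _)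
          ((ContinuousLinearMap.le_opNorm _ _).trans
            (mul_le_mul_of_nonneg_left hr (norm_nonneg _)))
      _ = (‖A - Pr k' ∘L A‖ + ‖ContinuousLinearMap.id ℝ E - Pr k'‖ * ε) * ‖y - y'‖ := by ring
      _ ≤ 1 / 8 * ‖y - y'‖ := mul_le_mul_of_nonneg_right pa.le (norm_nonneg _)
  · intro z hz z' hz'
    have hr := hgB z (mem_ball.2 ((hz0 z hz).trans_le h2)) z'
      (mem_ball.2 ((hz0 z' hz').trans_le h2))
    have e1 : Pr k (g z - g z')
        = (Pr k ∘L B) (z - z') + Pr k (g z - g z' - B (z - z')) := by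
      simp only [ContinuousLinearMap.comp_apply, map_sub]
      abel
    rw [e1]
    calc _ ≤ ‖(Pr k ∘L B) (z - z')‖ + ‖Pr k (g z - g z' - B (z - z'))‖ := norm_add_le _ _
      _ ≤ ‖Pr k ∘L B‖ * ‖z - z'‖ + ‖Pr k‖ * (ε * ‖z - z'‖) :=
        add_le_add (ContinuousLinearMap.le_opNorm _ _)
          ((ContinuousLinearMap.le_opNorm _ _).trans
            (mul_le_mul_of_nonneg_left hr (norm_nonneg _)))
      _ = (‖Pr k ∘L B‖ + ‖Pr k‖ * ε) * ‖z - z'‖ := by ring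
      _ ≤ 1 / 8 * ‖z - z'‖ := mul_le_mul_of_nonneg_right pb.le (norm_nonneg _)
  · intro y hy z hz hye hzd
    have hyx := hy0 y hy
    have hzx := hz0 z hz
    have hyU : y ∈ U := hUx (mem_ball.2 (hyx.trans_le h3))
    have hzU : z ∈ U := hUfx (mem_ball.2 (hzx.trans_le h4))
    have hfy : dist (f y) (f x) < r₂ := hfs (hyx.trans_le h5)
    have hgz : dist (g z) x < r₁ := hgs (hzx.trans_le h6)
    have hr1 := hfA (g z) (mem_ball.2 hgz) y (mem_ball.2 (hyx.trans_le h1))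
    rw [hfg z hzU] at hr1
    have hr2 := hgB (f y) (mem_ball.2 hfy) z (mem_ball.2 (hzx.trans_le h2))
    rw [hgf y hyU] at hr2
    have n1 : ‖g z - y‖ = ‖y - g z‖ := norm_sub_rev _ _
    have n2 : ‖f y - z‖ = ‖z - f y‖ := norm_sub_rev _ _
    have hye' : Pr k (g z - y) = 0 := by
      rw [← neg_sub, map_neg, hye, neg_zero]
    have hd1 : z - f y = (Pr k' ∘L A ∘L (ContinuousLinearMap.id ℝ E - Pr k)) (g z - y)
        + Pr k' (z - f y - A (g z - y)) := by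
      simp only [ContinuousLinearMap.comp_apply, sub_apply,
        ContinuousLinearMap.id_apply]
      rw [hye', sub_zero, map_sub (Pr k') (z - f y), hzd]
      abel
    have hd2 : ‖z - f y‖ ≤ 1 / 2 * ‖y - g z‖ := by
      calc ‖z - f y‖ = ‖(Pr k' ∘L A ∘L (ContinuousLinearMap.id ℝ E - Pr k)) (g z - y)
            + Pr k' (z - f y - A (g z - y))‖ := congrArg _ hd1
        _ ≤ ‖(Pr k' ∘L A ∘L (ContinuousLinearMap.id ℝ E - Pr k)) (g z - y)‖
            + ‖Pr k' (z - f y - A (g z - y))‖ := norm_add_le _ _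
        _ ≤ ‖Pr k' ∘L A ∘L (ContinuousLinearMap.id ℝ E - Pr k)‖ * ‖g z - y‖
            + ‖Pr k'‖ * (ε * ‖g z - y‖) :=
          add_le_add (ContinuousLinearMap.le_opNorm _ _)
            ((ContinuousLinearMap.le_opNorm _ _).trans
              (mul_le_mul_of_nonneg_left hr1 (norm_nonneg _)))
        _ = (‖Pr k' ∘L A ∘L (ContinuousLinearMap.id ℝ E - Pr k)‖ + ‖Pr k'‖ * ε)
            * ‖y - g z‖ := by rw [n1]; ring
        _ ≤ 1 / 2 * ‖y - g z‖ := mul_le_mul_of_nonneg_right pc.le (norm_nonneg _)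
    have hzd' : Pr k' (f y - z) = f y - z := by
      rw [← neg_sub, map_neg, hzd]
    have he1 : y - g z = ((ContinuousLinearMap.id ℝ E - Pr k) ∘L B ∘L Pr k') (f y - z)
        + (ContinuousLinearMap.id ℝ E - Pr k) (y - g z - B (f y - z)) := by
      simp only [ContinuousLinearMap.comp_apply]
      rw [hzd', map_sub (ContinuousLinearMap.id ℝ E - Pr k) (y - g z)]
      simp only [sub_apply, ContinuousLinearMap.id_apply]
      rw [hye]
      abel
    have he2 : ‖y - g z‖ ≤ 1 / 2 * ‖z - f y‖ := by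
      calc ‖y - g z‖ = ‖((ContinuousLinearMap.id ℝ E - Pr k) ∘L B ∘L Pr k') (f y - z)
            + (ContinuousLinearMap.id ℝ E - Pr k) (y - g z - B (f y - z))‖ := congrArg _ he1
        _ ≤ ‖((ContinuousLinearMap.id ℝ E - Pr k) ∘L B ∘L Pr k') (f y - z)‖
            + ‖(ContinuousLinearMap.id ℝ E - Pr k) (y - g z - B (f y - z))‖ :=
          norm_add_le _ _
        _ ≤ ‖(ContinuousLinearMap.id ℝ E - Pr k) ∘L B ∘L Pr k'‖ * ‖f y - z‖
            + ‖ContinuousLinearMap.id ℝ E - Pr k‖ * (ε * ‖f y - z‖) :=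
          add_le_add (ContinuousLinearMap.le_opNorm _ _)
            ((ContinuousLinearMap.le_opNorm _ _).trans
              (mul_le_mul_of_nonneg_left hr2 (norm_nonneg _)))
        _ = (‖(ContinuousLinearMap.id ℝ E - Pr k) ∘L B ∘L Pr k'‖
            + ‖ContinuousLinearMap.id ℝ E - Pr k‖ * ε) * ‖z - f y‖ := by rw [n2]; ring
        _ ≤ 1 / 2 * ‖z - f y‖ := mul_le_mul_of_nonneg_right pd.le (norm_nonneg _)
    have h0 : ‖z - f y‖ = 0 := by
      have := norm_nonneg (z - f y)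
      have := norm_nonneg (y - g z)
      linarith
    exact sub_eq_zero.1 (norm_eq_zero.1 h0)

end Pool.Agent.ANO.Dyn
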