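import Pool.Agent.ANO.Dyn.Defs

/-!
# PACKAGE ANO-POW. Powers

`F` and its inverse are uniformly continuous; `N > 0`.
`expansive_of_pow`: restrict to the multiples of `N` (`zpow_mul`, `(F ^ N) ^ j = F ^ (N * j)`).
`shadowing_of_pow`: `ε` is given. The maps `F ^ i`, `0 ≤ i ≤ N`, are uniformly continuous: there
is `ε₁ ≤ ε` with `dist x y ≤ ε₁ → dist (F^i x) (F^i y) ≤ ε / 2` for `i < N`. Let `δ₁` be the
number of the shadowing property of `F ^ N` for `ε₁`, and `δ` such that every `δ`-pseudo-orbit `x`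
of `F` satisfies `dist (F^i (x j)) (x (j + i)) ≤ min δ₁ (ε/2)` for `0 ≤ i ≤ N` (induction on `i`,
uniform continuity). Then `j ↦ x (N * j)` is a `δ₁`-pseudo-orbit of `F ^ N`, it is shadowed by
`y`; for `m = N * j + i`, `0 ≤ i < N` (`Int.emod`, `Int.ediv`): `dist (F^m y) (x m) ≤ dist (F^i
(F^(N j) y)) (F^i (x (N j))) + dist (F^i (x (N j))) (x m) ≤ ε`.
`expansive_pow`: if the orbits under `F ^ N` are close then the orbits under `F` are close, by
uniform continuity of `F ^ i`, `0 ≤ i < N`.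
`shadowing_pow`: a `δ`-pseudo-orbit `x` of `F ^ N` gives the `δ`-pseudo-orbit `x' (N * j + i) =
F^i (x j)`, `0 ≤ i < N`, of `F` (if `i < N - 1` exact, if `i = N - 1` the error is `dist (F^N (x
j)) (x (j+1))`).
-/

set_option autoImplicit false

noncomputable section

namespace Pool.Agent.ANO.Dyn

open Metric

variable {X : Type*} [MetricSpace X] {F : X ≃ₜ X} {N : ℕ}

private theorem uc_pow (hF : UniformContinuous F) (i : ℕ) : UniformContinuous (F ^ i) := by
  induction i with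
  | zero => exact uniformContinuous_id
  | succ i ih =>
    have h1 : ((F ^ (i + 1) : X ≃ₜ X) : X → X) = F ∘ (F ^ i) := by
      funext x
      rw [pow_succ']
      rfl
    rw [h1]
    exact hF.comp ih

/-- the maps `F ^ i`, `i < n`, have a common modulus of continuity -/
private theorem unif_mod (hF : UniformContinuous F) {ε : ℝ} (hε : 0 < ε) (n : ℕ) :
    ∃ δ > 0, ∀ i < n, ∀ x y, dist x y ≤ δ → dist ((F ^ i) x) ((F ^ i) y) ≤ ε := by
  induction n with
  | zero => exact ⟨1, one_pos, fun i hi => absurd hi (Nat.not_lt_zero i)⟩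
  | succ n ih =>
    obtain ⟨δ, hδ, h⟩ := ih
    obtain ⟨δ', hδ', h'⟩ := Metric.uniformContinuous_iff.1 (uc_pow hF n) ε hε
    refine ⟨min δ (δ' / 2), lt_min hδ (half_pos hδ'), fun i hi x y hxy => ?_⟩
    rcases Nat.lt_succ_iff_lt_or_eq.1 hi with h1 | rfl
    · exact h i h1 x y (hxy.trans (min_le_left _ _))
    · exact (h' ((hxy.trans (min_le_right _ _)).trans_lt (half_lt_self hδ'))).le

/-- pseudo-orbits are close to orbits for a short time -/
private theorem unif_orb (hF : UniformContinuous F) (n : ℕ) :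
    ∀ {η : ℝ}, 0 < η → ∃ δ > 0, ∀ x : ℤ → X, (∀ j, dist (F (x j)) (x (j + 1)) ≤ δ) →
      ∀ i ≤ n, ∀ j : ℤ, dist ((F ^ i) (x j)) (x (j + i)) ≤ η := by
  induction n with
  | zero =>
    intro η hη
    refine ⟨1, one_pos, fun x _ i hi j => ?_⟩
    obtain rfl : i = 0 := by omega
    have h1 : ((F ^ 0 : X ≃ₜ X)) (x j) = x j := rfl
    rw [h1, Nat.cast_zero, add_zero, dist_self]
    exact hη.le
  | succ n ih =>
    intro η hη
    obtain ⟨η', hη', h'⟩ := Metric.uniformContinuous_iff.1 hF (η / 2) (half_pos hη)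
    obtain ⟨δ, hδ, h⟩ := ih (lt_min (half_pos hη') hη)
    refine ⟨min δ (η / 2), lt_min hδ (half_pos hη), fun x hx i hi j => ?_⟩
    have hx1 : ∀ j, dist (F (x j)) (x (j + 1)) ≤ δ := fun j => (hx j).trans (min_le_left _ _)
    rcases Nat.le_succ_iff.1 hi with h1 | h1
    · exact (h x hx1 i h1 j).trans (min_le_right _ _)
    · subst h1
      have h2 : ((F ^ (n + 1) : X ≃ₜ X)) (x j) = F ((F ^ n : X ≃ₜ X) (x j)) := by
        rw [pow_succ']
        rfl
      have h3 : dist ((F ^ n) (x j)) (x (j + n)) < η' :=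
        ((h x hx1 n le_rfl j).trans (min_le_left _ _)).trans_lt (half_lt_self hη')
      have h4 := (h' h3).le
      have h5 := (hx (j + n)).trans (min_le_right _ _)
      have h6 : x (j + ((n + 1 : ℕ) : ℤ)) = x (j + n + 1) := by
        congr 1
        push_cast
        ring
      rw [h2, h6]
      have h7 := dist_triangle (F ((F ^ n : X ≃ₜ X) (x j))) (F (x (j + n))) (x (j + n + 1))
      linarith

private theorem split_int (hN : 0 < N) (m : ℤ) : ∃ i < N, ∃ q : ℤ, m = i + N * q := by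
  have hN' : (0 : ℤ) < N := by exact_mod_cast hN
  refine ⟨(m % N).toNat, ?_, m / N, ?_⟩
  · have h1 := Int.emod_lt_of_pos m hN'
    omega
  · have h1 := Int.emod_nonneg m hN'.ne'
    rw [Int.toNat_of_nonneg h1]
    exact (Int.emod_add_mul_ediv m N).symm

private theorem pow_zpow_app (q : ℤ) (x : X) :
    ((F ^ N : X ≃ₜ X) ^ q) x = (F ^ ((N : ℤ) * q)) x := by
  rw [zpow_mul, zpow_natCast]

private theorem zpow_split (i : ℕ) (q : ℤ) (x : X) :
    (F ^ ((i : ℤ) + N * q)) x = (F ^ i) (((F ^ N : X ≃ₜ X) ^ q) x) := by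
  rw [zpow_add, zpow_natCast, zpow_mul, zpow_natCast]
  rfl

theorem expansive_of_pow (h : Expansive (F ^ N)) : Expansive F := by
  obtain ⟨e, he, h⟩ := h
  refine ⟨e, he, fun x y hxy => h x y fun j => ?_⟩
  rw [pow_zpow_app, pow_zpow_app]
  exact hxy _

theorem shadowing_of_pow (hN : 0 < N) (hF : UniformContinuous F)
    (h : Shadowing (F ^ N)) : Shadowing F := by
  intro ε hε
  obtain ⟨ε₁, hε₁, h1⟩ := unif_mod hF (half_pos hε) N
  obtain ⟨δ₁, hδ₁, h2⟩ := h ε₁ hε₁
  obtain ⟨δ, hδ, h3⟩ := unif_orb hF N (lt_min hδ₁ (half_pos hε))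
  refine ⟨δ, hδ, fun x hx => ?_⟩
  obtain ⟨y, hy⟩ := h2 (fun j => x (N * j)) fun j => by
    have h4 := (h3 x hx N le_rfl (N * j)).trans (min_le_left _ _)
    have h5 : (N : ℤ) * (j + 1) = N * j + N := by ring
    rw [h5]
    exact h4
  refine ⟨y, fun m => ?_⟩
  obtain ⟨i, hi, q, rfl⟩ := split_int hN m
  rw [zpow_split]
  have h4 := h1 i hi _ _ (hy q)
  have h5 := (h3 x hx i hi.le (N * q)).trans (min_le_right _ _)
  rw [add_comm (i : ℤ)]
  have h6 := dist_triangle ((F ^ i) (((F ^ N : X ≃ₜ X) ^ q) y)) ((F ^ i) (x (N * q)))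
    (x (N * q + i))
  linarith

theorem expansive_pow (hN : 0 < N) (hF : UniformContinuous F) (h : Expansive F) :
    Expansive (F ^ N) := by
  obtain ⟨e, he, h⟩ := h
  obtain ⟨δ, hδ, h1⟩ := unif_mod hF he N
  refine ⟨δ, hδ, fun x y hxy => h x y fun m => ?_⟩
  obtain ⟨i, hi, q, rfl⟩ := split_int hN m
  rw [zpow_split, zpow_split]
  exact h1 i hi _ _ (hxy q)

theorem shadowing_pow (hN : 0 < N) (h : Shadowing F) : Shadowing (F ^ N) := by
  intro ε hε
  obtain ⟨δ, hδ, h1⟩ := h ε hε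
  refine ⟨δ, hδ, fun x hx => ?_⟩
  have hN' : (0 : ℤ) < N := by exact_mod_cast hN
  have key : ∀ i < N, ∀ q : ℤ,
      (F ^ (((i : ℤ) + N * q) % N).toNat) (x (((i : ℤ) + N * q) / N)) = (F ^ i) (x q) := by
    intro i hi q
    have h2 : ((i : ℤ) + N * q) % N = i := by
      rw [Int.add_mul_emod_self_left]
      exact Int.emod_eq_of_lt (Int.natCast_nonneg i) (by exact_mod_cast hi)
    have h3 : ((i : ℤ) + N * q) / N = q := by
      rw [Int.add_mul_ediv_left _ _ hN'.ne', Int.ediv_eq_zero_of_lt (Int.natCast_nonneg i)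
        (by exact_mod_cast hi), zero_add]
    rw [h2, h3, Int.toNat_natCast]
  obtain ⟨y, hy⟩ := h1 (fun m => (F ^ (m % N).toNat) (x (m / N))) fun m => by
    obtain ⟨i, hi, q, rfl⟩ := split_int hN m
    rw [key i hi q]
    have h2 : F ((F ^ i : X ≃ₜ X) (x q)) = (F ^ (i + 1) : X ≃ₜ X) (x q) := by
      rw [pow_succ']
      rfl
    rw [h2]
    by_cases h3 : i + 1 < N
    · have h4 : (i : ℤ) + N * q + 1 = ((i + 1 : ℕ) : ℤ) + N * q := by
        push_cast
        ring
      rw [h4, key (i + 1) h3 q, dist_self]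
      exact hδ.le
    · have h4 : i + 1 = N := by omega
      have h5 : (i : ℤ) + N * q + 1 = ((0 : ℕ) : ℤ) + N * (q + 1) := by
        have : (N : ℤ) = i + 1 := by exact_mod_cast h4.symm
        rw [this]
        push_cast
        ring
      rw [h5, key 0 hN (q + 1), h4]
      exact hx q
  refine ⟨y, fun j => ?_⟩
  have h2 := hy (((0 : ℕ) : ℤ) + N * j)
  rw [zpow_split] at h2
  change dist ((F ^ 0 : X ≃ₜ X) (((F ^ N : X ≃ₜ X) ^ j) y))
    ((F ^ ((((0 : ℕ) : ℤ) + N * j) % N).toNat) (x ((((0 : ℕ) : ℤ) + N * j) / N))) ≤ ε at h2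
  rw [key 0 hN j] at h2
  exact h2

end Pool.Agent.ANO.Dyn
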