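import Pool.Agent.ANO.Dyn.Defs

/-!
# PACKAGE ANO-UNIF. Uniformity over compact sets

`unif`: for `x ∈ K` let `ρ x` be the number of the hypothesis; the sets
`{k | dist k x < ρ x / 2 ∧ dist (f k) (f x) < ρ x / 2}` are neighbourhoods of `x` within `K`
(`ContinuousOn`); finitely many of them cover `K` (`IsCompact.elim_nhdsWithin_subcover` or
`elim_nhds_subcover'`); `ρ` = half of the minimum of the `ρ x` (`K` empty: `ρ = 1`). `Good` is
monotone in `ρ`.
-/

set_option autoImplicit false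

noncomputable section

namespace Pool.Agent.ANO.Dyn

open Metric

variable {E : Type*} [NormedAddCommGroup E] [NormedSpace ℝ E]

/-- the estimates hold for the pair `k`, `k'` with the radius `ρ` -/
def Good (U : Set E) (f g : E → E) (Pr : E → E →L[ℝ] E) (k k' : E) (ρ : ℝ) : Prop :=
  closedBall k ρ ⊆ U ∧ closedBall k' ρ ⊆ U ∧ Est f g (Pr k) (Pr k') k k' ρ

theorem Good.mono {U : Set E} {f g : E → E} {Pr : E → E →L[ℝ] E} {k k' : E} {ρ ρ' : ℝ}
    (h : Good U f g Pr k k' ρ) (hρ : ρ' ≤ ρ) : Good U f g Pr k k' ρ' :=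
  ⟨(closedBall_subset_closedBall hρ).trans h.1, (closedBall_subset_closedBall hρ).trans h.2.1,
    h.2.2.mono hρ⟩

theorem unif {U : Set E} {f g : E → E} {Pr : E → E →L[ℝ] E} {K : Set E} (hK : IsCompact K)
    (hf : ContinuousOn f K)
    (h : ∀ x ∈ K, ∃ ρ > 0, ∀ k ∈ closedBall x ρ, ∀ k' ∈ closedBall (f x) ρ,
      Good U f g Pr k k' ρ) :
    ∃ ρ > 0, ∀ k ∈ K, ∀ k' ∈ closedBall (f k) ρ, Good U f g Pr k k' ρ := by
  refine hK.induction_on
    (p := fun S => ∃ ρ > 0, ∀ k ∈ S, ∀ k' ∈ closedBall (f k) ρ, Good U f g Pr k k' ρ) ?_ ?_ ?_ ?_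
  · exact ⟨1, one_pos, fun k hk => absurd hk (Set.notMem_empty k)⟩
  · rintro S T hST ⟨ρ, hρ, h1⟩
    exact ⟨ρ, hρ, fun k hk => h1 k (hST hk)⟩
  · rintro S T ⟨ρ, hρ, h1⟩ ⟨ρ', hρ', h2⟩
    refine ⟨min ρ ρ', lt_min hρ hρ', fun k hk k' hk' => ?_⟩
    rcases hk with hk | hk
    · exact (h1 k hk k' (closedBall_subset_closedBall (min_le_left _ _) hk')).mono
        (min_le_left _ _)
    · exact (h2 k hk k' (closedBall_subset_closedBall (min_le_right _ _) hk')).mono
        (min_le_right _ _)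
  · intro x hx
    obtain ⟨ρ, hρ, h1⟩ := h x hx
    have h2 : ball x (ρ / 2) ∈ nhdsWithin x K :=
      mem_nhdsWithin_of_mem_nhds (ball_mem_nhds x (half_pos hρ))
    have h3 : f ⁻¹' ball (f x) (ρ / 2) ∈ nhdsWithin x K :=
      (hf x hx) (ball_mem_nhds (f x) (half_pos hρ))
    refine ⟨ball x (ρ / 2) ∩ f ⁻¹' ball (f x) (ρ / 2), Filter.inter_mem h2 h3, ρ / 2,
      half_pos hρ, fun k hk k' hk' => ?_⟩
    have h4 : dist k x < ρ / 2 := hk.1
    have h5 : dist (f k) (f x) < ρ / 2 := hk.2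
    have h6 : dist k' (f k) ≤ ρ / 2 := hk'
    have h7 : dist k' (f x) ≤ dist k' (f k) + dist (f k) (f x) := dist_triangle _ _ _
    refine (h1 k ?_ k' ?_).mono (by linarith)
    · rw [mem_closedBall]
      linarith
    · rw [mem_closedBall]
      linarith

end Pool.Agent.ANO.Dyn
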