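import Pool.Agent.ANO.Iface
import Pool.Agent.ANO.Dyn.Main

/-!
# Module C: the final statement
-/

set_option autoImplicit false

namespace Pool.Agent.ANO.Dyn

theorem dynStatement : DynStatement := by
  intro r k S F hF
  refine ⟨1, Nat.one_pos, fun N hN => ?_⟩
  obtain ⟨h1, h2⟩ := main hF (N := N) (by omega)
  exact ⟨h1, h2⟩

end Pool.Agent.ANO.Dyn
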