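import Pool.Agent.ANO.Dyn.Defs

/-!
# PACKAGE ANO-SEQ. A fixed point theorem for sequences of maps

`seq_unique`: let `D = sup ‖y j - y' j‖ ≤ 2 ρ` (or: show by induction on `n` that
`‖y j - y' j‖ ≤ 2 ρ / 4 ^ n` for all `j`). Since `v = (v - P v) + P v`,
`‖y j - y' j‖ ≤ ‖(1 - P j) (f (j-1) (y (j-1)) - f (j-1) (y' (j-1)))‖ +
‖P j (g j (y (j+1)) - g j (y' (j+1)))‖ ≤ D / 8 + D / 8`.

`seq_exists`: define `y 0 j = k j` and `y (n+1) j = k j + (A - P j A) + P j B`, `A = f (j-1) (y n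
(j-1)) - k j`, `B = g j (y n (j+1)) - k j`. By induction on `n`, for all `j`: `‖y (n+1) j - y n j‖
≤ 2 δ / 4 ^ n` (`n = 0`: `h1` for `j - 1` and `h2`; step: `Est.s` for `j - 1` and `Est.u` for `j`)
and `‖y n j - k j‖ ≤ 4 δ ≤ ρ`. The sequences `n ↦ y n j` are Cauchy (`cauchySeq_of_le_geometric`),
`y j` is the limit, `‖y j - k j‖ ≤ 4 δ`. By `Est.s`, `Est.u` the maps `v ↦ f v - P' (f v)` and `v
↦ P (g v)` are Lipschitz on the closed balls, so in the limit `y j = k j + (A - P j A) + P j B`,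
`A = f (j-1) (y (j-1)) - k j`, `B = g j (y (j+1)) - k j`. With `P (P v) = P v`: `P j (y j - g j (y
(j+1))) = 0` and `(1 - P j) (y j - f (j-1) (y (j-1))) = 0`; so `Est.eq` for `j` gives `y (j+1) = f
j (y j)`. (Index shift: `j = (j - 1) + 1`; it is convenient to prove everything for `j + 1` or to
use `obtain ⟨i, rfl⟩ : ∃ i, j = i + 1`.)
-/

set_option autoImplicit false

noncomputable section

namespace Pool.Agent.ANO.Dyn

open Metric

variable {E : Type*} [NormedAddCommGroup E] [NormedSpace ℝ E]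

theorem seq_unique {f g : ℤ → E → E} {P : ℤ → E →L[ℝ] E} {k : ℤ → E} {ρ : ℝ}
    (h : ∀ j, Est (f j) (g j) (P j) (P (j + 1)) (k j) (k (j + 1)) ρ) {y y' : ℤ → E}
    (hy : ∀ j, y j ∈ closedBall (k j) ρ) (hy' : ∀ j, y' j ∈ closedBall (k j) ρ)
    (e : ∀ j, y (j + 1) = f j (y j)) (e' : ∀ j, y' (j + 1) = f j (y' j))
    (i : ∀ j, g j (y (j + 1)) = y j) (i' : ∀ j, g j (y' (j + 1)) = y' j) : y = y' := by
  have key : ∀ n : ℕ, ∀ j, ‖y j - y' j‖ ≤ 2 * ρ * (1 / 4) ^ n := by
    intro n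
    induction n with
    | zero =>
      intro j
      have h1 := mem_closedBall.1 (hy j)
      have h2 := mem_closedBall.1 (hy' j)
      rw [← dist_eq_norm]
      have h3 := dist_triangle_right (y j) (y' j) (k j)
      rw [pow_zero, mul_one]
      linarith
    | succ n ih =>
      have step : ∀ m, ‖y (m + 1) - y' (m + 1)‖ ≤ 2 * ρ * (1 / 4) ^ (n + 1) := by
        intro m
        have h1 := (h m).s (y m) (hy m) (y' m) (hy' m)
        rw [← e m, ← e' m] at h1
        have h2 := (h (m + 1)).u (y (m + 1 + 1)) (hy _) (y' (m + 1 + 1)) (hy' _)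
        rw [i (m + 1), i' (m + 1)] at h2
        have h3 : ‖y (m + 1) - y' (m + 1)‖ ≤
            ‖(y (m + 1) - y' (m + 1)) - P (m + 1) (y (m + 1) - y' (m + 1))‖
              + ‖P (m + 1) (y (m + 1) - y' (m + 1))‖ := by
          have h4 := norm_add_le
            ((y (m + 1) - y' (m + 1)) - P (m + 1) (y (m + 1) - y' (m + 1)))
            (P (m + 1) (y (m + 1) - y' (m + 1)))
          rwa [sub_add_cancel] at h4
        have h5 := ih m
        have h6 := ih (m + 1 + 1)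
        rw [pow_succ]
        linarith
      intro j
      have h7 := step (j - 1)
      rwa [sub_add_cancel] at h7
  funext j
  have lim : Filter.Tendsto (fun n : ℕ => 2 * ρ * (1 / 4 : ℝ) ^ n) Filter.atTop (nhds 0) := by
    have h1 := tendsto_pow_atTop_nhds_zero_of_lt_one (r := (1 / 4 : ℝ)) (by norm_num)
      (by norm_num)
    have h2 := h1.const_mul (2 * ρ)
    rwa [mul_zero] at h2
  have h0 : ‖y j - y' j‖ ≤ 0 := ge_of_tendsto' lim fun n => key n j
  exact sub_eq_zero.1 (norm_le_zero_iff.1 h0)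

/-- one step of the iteration -/
private def stepT (f g : ℤ → E → E) (P : ℤ → E →L[ℝ] E) (k z : ℤ → E) : ℤ → E := fun j =>
  k j + ((f (j - 1) (z (j - 1)) - k j) - P j (f (j - 1) (z (j - 1)) - k j))
    + P j (g j (z (j + 1)) - k j)

private lemma stepT_succ (f g : ℤ → E → E) (P : ℤ → E →L[ℝ] E) (k z : ℤ → E) (j : ℤ) :
    stepT f g P k z (j + 1) = k (j + 1) + ((f j (z j) - k (j + 1))
      - P (j + 1) (f j (z j) - k (j + 1))) + P (j + 1) (g (j + 1) (z (j + 1 + 1)) - k (j + 1)) := by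
  unfold stepT
  rw [add_sub_cancel_right]

private lemma stepT_lip {f g : ℤ → E → E} {P : ℤ → E →L[ℝ] E} {k : ℤ → E} {ρ : ℝ}
    (h : ∀ j, Est (f j) (g j) (P j) (P (j + 1)) (k j) (k (j + 1)) ρ) {z z' : ℤ → E}
    (hz : ∀ j, z j ∈ closedBall (k j) ρ) (hz' : ∀ j, z' j ∈ closedBall (k j) ρ) (j : ℤ) :
    ‖stepT f g P k z (j + 1) - stepT f g P k z' (j + 1)‖ ≤
      1 / 8 * ‖z j - z' j‖ + 1 / 8 * ‖z (j + 1 + 1) - z' (j + 1 + 1)‖ := by
  have h1 := (h j).s (z j) (hz j) (z' j) (hz' j)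
  have h2 := (h (j + 1)).u (z (j + 1 + 1)) (hz _) (z' (j + 1 + 1)) (hz' _)
  have h3 : stepT f g P k z (j + 1) - stepT f g P k z' (j + 1) =
      ((f j (z j) - f j (z' j)) - P (j + 1) (f j (z j) - f j (z' j)))
        + P (j + 1) (g (j + 1) (z (j + 1 + 1)) - g (j + 1) (z' (j + 1 + 1))) := by
    rw [stepT_succ, stepT_succ]
    simp only [map_sub]
    abel
  rw [h3]
  exact (norm_add_le _ _).trans (add_le_add h1 h2)

theorem seq_exists [CompleteSpace E] {f g : ℤ → E → E} {P : ℤ → E →L[ℝ] E} {k : ℤ → E}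
    {ρ δ : ℝ} (hδ : 0 ≤ δ) (hρ : 4 * δ ≤ ρ) (hP : ∀ j v, P j (P j v) = P j v)
    (h : ∀ j, Est (f j) (g j) (P j) (P (j + 1)) (k j) (k (j + 1)) ρ)
    (h1 : ∀ j, ‖(f j (k j) - k (j + 1)) - P (j + 1) (f j (k j) - k (j + 1))‖ ≤ δ)
    (h2 : ∀ j, ‖P j (g j (k (j + 1)) - k j)‖ ≤ δ) :
    ∃ y : ℤ → E, (∀ j, ‖y j - k j‖ ≤ 4 * δ) ∧ ∀ j, y (j + 1) = f j (y j) := by
  let Y : ℕ → ℤ → E := fun n => Nat.rec k (fun _ z => stepT f g P k z) n
  have Y0 : Y 0 = k := rfl
  have YS : ∀ n, Y (n + 1) = stepT f g P k (Y n) := fun n => rfl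
  have pw : ∀ n : ℕ, 0 ≤ (1 / 4 : ℝ) ^ n := fun n => by positivity
  have hb : ∀ n : ℕ, 8 / 3 * δ * (1 - (1 / 4 : ℝ) ^ n) ≤ 4 * δ := by
    intro n
    have := mul_nonneg hδ (pw n)
    nlinarith
  have key : ∀ n : ℕ, (∀ j, ‖Y n j - k j‖ ≤ 8 / 3 * δ * (1 - (1 / 4) ^ n)) ∧
      (∀ j, ‖Y (n + 1) j - Y n j‖ ≤ 2 * δ * (1 / 4) ^ n) := by
    intro n
    induction n with
    | zero =>
      refine ⟨fun j => ?_, fun j => ?_⟩
      · rw [Y0]
        simp
      · obtain ⟨i, rfl⟩ : ∃ i, j = i + 1 := ⟨j - 1, by ring⟩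
        rw [YS, Y0, stepT_succ, pow_zero, mul_one]
        have e1 : k (i + 1) + (f i (k i) - k (i + 1) - P (i + 1) (f i (k i) - k (i + 1)))
            + P (i + 1) (g (i + 1) (k (i + 1 + 1)) - k (i + 1)) - k (i + 1)
            = (f i (k i) - k (i + 1) - P (i + 1) (f i (k i) - k (i + 1)))
              + P (i + 1) (g (i + 1) (k (i + 1 + 1)) - k (i + 1)) := by abel
        rw [e1]
        have e2 := norm_add_le (f i (k i) - k (i + 1) - P (i + 1) (f i (k i) - k (i + 1)))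
          (P (i + 1) (g (i + 1) (k (i + 1 + 1)) - k (i + 1)))
        have e3 := h1 i
        have e4 := h2 (i + 1)
        linarith
    | succ n ih =>
      have a1 : ∀ j, ‖Y (n + 1) j - k j‖ ≤ 8 / 3 * δ * (1 - (1 / 4) ^ (n + 1)) := by
        intro j
        have e1 := norm_add_le (Y (n + 1) j - Y n j) (Y n j - k j)
        rw [sub_add_sub_cancel] at e1
        have e2 := ih.1 j
        have e3 := ih.2 j
        rw [pow_succ]
        linarith
      refine ⟨a1, fun j => ?_⟩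
      obtain ⟨i, rfl⟩ : ∃ i, j = i + 1 := ⟨j - 1, by ring⟩
      have m1 : ∀ j, Y (n + 1) j ∈ closedBall (k j) ρ := fun j => by
        rw [mem_closedBall, dist_eq_norm]
        exact ((a1 j).trans (hb _)).trans hρ
      have m0 : ∀ j, Y n j ∈ closedBall (k j) ρ := fun j => by
        rw [mem_closedBall, dist_eq_norm]
        exact ((ih.1 j).trans (hb _)).trans hρ
      have e1 := stepT_lip h m1 m0 i
      have e2 := ih.2 i
      have e3 := ih.2 (i + 1 + 1)
      rw [YS (n + 1)]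
      nth_rewrite 2 [YS n]
      rw [pow_succ]
      linarith
  have cau : ∀ j, CauchySeq fun n => Y n j := by
    intro j
    refine cauchySeq_of_le_geometric (1 / 4) (2 * δ) (by norm_num) fun n => ?_
    rw [dist_comm, dist_eq_norm]
    exact (key n).2 j
  choose y hy using fun j => cauchySeq_tendsto_of_complete (cau j)
  have yb : ∀ j, ‖y j - k j‖ ≤ 4 * δ := by
    intro j
    have e1 : Filter.Tendsto (fun n => ‖Y n j - k j‖) Filter.atTop (nhds ‖y j - k j‖) :=
      ((hy j).sub_const (k j)).norm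
    exact le_of_tendsto' e1 fun n => ((key n).1 j).trans (hb n)
  have ym : ∀ j, y j ∈ closedBall (k j) ρ := fun j => by
    rw [mem_closedBall, dist_eq_norm]
    exact (yb j).trans hρ
  have Ym : ∀ n j, Y n j ∈ closedBall (k j) ρ := fun n j => by
    rw [mem_closedBall, dist_eq_norm]
    exact (((key n).1 j).trans (hb _)).trans hρ
  have fix : ∀ i, y (i + 1) = stepT f g P k y (i + 1) := by
    intro i
    have t1 : Filter.Tendsto (fun n => Y (n + 1) (i + 1)) Filter.atTop (nhds (y (i + 1))) :=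
      (Filter.tendsto_add_atTop_iff_nat 1).2 (hy (i + 1))
    have t2 : Filter.Tendsto (fun n => Y (n + 1) (i + 1)) Filter.atTop
        (nhds (stepT f g P k y (i + 1))) := by
      rw [tendsto_iff_norm_sub_tendsto_zero]
      have u1 : Filter.Tendsto (fun n => 1 / 8 * ‖Y n i - y i‖
          + 1 / 8 * ‖Y n (i + 1 + 1) - y (i + 1 + 1)‖) Filter.atTop (nhds 0) := by
        have v1 := (tendsto_iff_norm_sub_tendsto_zero.1 (hy i)).const_mul (1 / 8)
        have v2 := (tendsto_iff_norm_sub_tendsto_zero.1 (hy (i + 1 + 1))).const_mul (1 / 8)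
        have v3 := v1.add v2
        simpa using v3
      exact squeeze_zero (fun n => norm_nonneg _) (fun n => stepT_lip h (Ym n) ym i) u1
    exact tendsto_nhds_unique t1 t2
  have pa : ∀ j, P j (y j - g j (y (j + 1))) = 0 := by
    intro j
    obtain ⟨i, rfl⟩ : ∃ i, j = i + 1 := ⟨j - 1, by ring⟩
    have e1 := fix i
    rw [stepT_succ] at e1
    have e2 : P (i + 1) (y (i + 1)) = P (i + 1) (g (i + 1) (y (i + 1 + 1))) := by
      conv_lhs => rw [e1]
      simp only [map_add, map_sub, hP]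
      abel
    rw [map_sub, e2, sub_self]
  have pb : ∀ j, P (j + 1) (y (j + 1) - f j (y j)) = y (j + 1) - f j (y j) := by
    intro i
    have e1 := fix i
    rw [stepT_succ] at e1
    have e2 : y (i + 1) - f i (y i) =
        P (i + 1) ((g (i + 1) (y (i + 1 + 1)) - k (i + 1)) - (f i (y i) - k (i + 1))) := by
      conv_lhs => rw [e1]
      simp only [map_sub]
      abel
    rw [e2, hP]
  exact ⟨y, yb, fun j => (h j).eq (y j) (ym j) (y (j + 1)) (ym (j + 1)) (pa j) (pb j)⟩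

end Pool.Agent.ANO.Dyn
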